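import Mathlib
import Pool.Agent.Helper82.OS.Defs
import Pool.Agent.Helper82.OS.Defs2
import Pool.Agent.Helper82.OS.Defs3
import Pool.Agent.W546.ST.Defs

/-!
# The pointwise inequality in dimension `N = 4` (spheres `S^5`): definitions and statements
-/
set_option autoImplicit false
open Matrix MeasureTheory Set Metric Filter Topology
open scoped ENNReal Nat

namespace Pool.Agent.W546.N4
open Pool.Agent.Helper82.OS Pool.Agent.W546.ST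

/-- plane near the optimal one: `β_j = ν ∧ q_j + Γ_j`, `q_j` = first four coordinate vectors of
`ℝ^5 = ν^⊥`, `e` = last one, `x = x0 q_0 + xe e` -/
structure NP where
  Ga : Fin 4 → Matrix (Fin 5) (Fin 5) ℝ
  x0 : ℝ
  xe : ℝ
  hx : x0 ^ 2 + xe ^ 2 = 1
  sk : ∀ j, (Ga j)ᵀ = -Ga j
  cr : ∀ i, ∑ j : Fin 4, Ga j i j.castSucc = 0
  z0 : ∀ k l : Fin 3, Ga 0 k.succ.castSucc l.succ.castSucc = 0
  z1 : ∀ j k l : Fin 3, j ≠ k → k ≠ l → j ≠ l → Ga j.succ k.succ.castSucc l.succ.castSucc = 0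
  z2 : ∀ j k : Fin 3, j ≠ k → xe * Ga j.succ k.succ.castSucc 0 = x0 * Ga j.succ k.succ.castSucc 4

namespace NP
variable (G : NP)
noncomputable def D : ℝ := (1 / 2) * ∑ j, ∑ a, ∑ b, G.Ga j a b ^ 2
noncomputable def R2 : ℝ := ∑ j : Fin 4, ∑ k : Fin 4, G.Ga j k.castSucc 4 ^ 2
noncomputable def Rs : ℝ :=
  ∑ j : Fin 4, ∑ k : Fin 4, ((G.Ga j k.castSucc 4 + G.Ga k j.castSucc 4) / 2) ^ 2
noncomputable def s2 : ℝ :=
  ∑ j : Fin 4, ∑ k : Fin 4, ∑ b, ((G.Ga j b k.castSucc + G.Ga k b j.castSucc) / 2) ^ 2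
/-- `Γ_j w` -/
noncomputable def gv (w : E 5) (j : Fin 4) : Fin 5 → ℝ := G.Ga j *ᵥ w.ofLp
noncomputable def gm (t : ℝ) (w : E 5) : Matrix (Fin 4) (Fin 4) ℝ :=
  Matrix.of fun i j => (∑ b, ((if b = i.castSucc then t else 0) + G.gv w i b) *
    ((if b = j.castSucc then t else 0) + G.gv w j b)) + w i.castSucc * w j.castSucc
noncomputable def B (w : E 5) : ℝ := ∑ j, ∑ b, G.gv w j b ^ 2
noncomputable def Z (w : E 5) (b : Fin 5) : ℝ := ∑ j : Fin 4, w j.castSucc * G.gv w j b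
end NP

/-- `u = w_0² + ... + w_3²` -/
noncomputable def uu (w : E 5) : ℝ := ∑ i : Fin 4, w i.castSucc ^ 2

noncomputable def NP.P (G : NP) (w : E 5) : ℝ := (∑ b, G.Z w b ^ 2) / uu w
noncomputable def NP.k (G : NP) (w : E 5) : ℝ := w 4 * G.Z w 4 / uu w

noncomputable def GNP (G : NP) : ℝ≥0∞ :=
  ∫⁻ w : E 5, ∫⁻ t : ℝ, ENNReal.ofReal (Real.sqrt (G.gm t w).det * (gt t * gw w))

/-- Gaussian integral of a weight `F t u v`, `v = w_4` -/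
noncomputable def II (F : ℝ → ℝ → ℝ → ℝ) : ℝ≥0∞ :=
  ∫⁻ w : E 5, ∫⁻ t : ℝ, ENNReal.ofReal (F t (uu w) (w 4) * (gt t * gw w))

/-- Gaussian integral of a weight times a function of `w` -/
noncomputable def IW (F : ℝ → ℝ → ℝ → ℝ) (f : E 5 → ℝ) : ℝ≥0∞ :=
  ∫⁻ w : E 5, ∫⁻ t : ℝ, ENNReal.ofReal (F t (uu w) (w 4) * f w * (gt t * gw w))

/-- `(2π)^3` -/
noncomputable def c0 : ℝ := (2 * Real.pi) ^ 3
noncomputable def r2p : ℝ := Real.sqrt (2 * Real.pi)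

/-! ## statements -/

/-- pointwise bound -/
def St4_PW : Prop := ∀ (G : NP) (t : ℝ) (w : E 5), uu w ≠ 0 →
  0 ≤ G.P w ∧ G.P w ≤ G.B w ∧
  (Real.sqrt (G.gm t w).det + Real.sqrt (G.gm (-t) w).det) / 2 ≤
    Real.sqrt (t ^ 2 + uu w + G.P w) *
      (Real.sqrt ((t ^ 2 + (G.B w - G.P w) / 3) ^ 3) + 37 / 200 * |t| * G.k w ^ 2)

/-- slopes -/
def St4_SL : Prop := ∀ G : NP,
  (G.x0 ^ 2 / 32 + G.xe ^ 2 / 14) * G.D ≤ G.R2 / 14 + G.s2 / 16 - 37 / 5600 * G.Rs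

/-- the `t`-integral of the second order term -/
def St4_PHI : Prop := ∀ u b : ℝ, 0 < u → 0 ≤ b →
  ∫⁻ t : ℝ, ENNReal.ofReal (Real.sqrt (t ^ 2 + u) *
      (Real.sqrt ((t ^ 2 + b) ^ 3) - |t| ^ 3 - 3 / 2 * b * |t|) * gt t)
    ≤ ENNReal.ofReal (Real.sqrt u * (203 / 100 * b ^ 2 + 9 / 400 * b) + 3 / 8 * b ^ 2 / Real.sqrt u)

/-- averages of `B`, `B²`, `|Z|²`, `k²` over the directions of `(w_0, ..., w_3)` -/
def St4_M : Prop := ∀ (G : NP) (F : ℝ → ℝ → ℝ → ℝ),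
  Measurable (fun p : ℝ × ℝ × ℝ => F p.1 p.2.1 p.2.2) → (∀ t u v, 0 ≤ F t u v) →
  IW F G.B = ENNReal.ofReal ((2 * G.D - G.R2) / 4) * II (fun t u v => F t u v * u) +
      ENNReal.ofReal G.R2 * II (fun t u v => F t u v * v ^ 2) ∧
  (∀ K : ℝ≥0∞, II (fun t u v => F t u v * u ^ 2) ≤ 24 * K → II (fun t u v => F t u v * (u * v ^ 2)) ≤ 4 * K →
      II (fun t u v => F t u v * v ^ 4) ≤ 3 * K →
      IW F (fun w => G.B w ^ 2) ≤ ENNReal.ofReal (8 * G.D ^ 2) * K) ∧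
  IW F (fun w => ∑ b, G.Z w b ^ 2) = ENNReal.ofReal (G.s2 / 12) * II (fun t u v => F t u v * u ^ 2) +
      ENNReal.ofReal (G.R2 / 4) * II (fun t u v => F t u v * (u * v ^ 2)) ∧
  IW F (fun w => G.k w ^ 2) = ENNReal.ofReal (G.Rs / 12) * II (fun t u v => F t u v * v ^ 2)

/-- `B ≤ D |w|²` -/
def St4_BD : Prop := ∀ (G : NP) (w : E 5), 0 ≤ G.B w ∧ G.B w ≤ G.D * (uu w + w 4 ^ 2) ∧
  G.R2 ≤ G.D ∧ G.Rs ≤ G.R2 ∧ 0 ≤ G.s2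

/-- radial integrals -/
def St4_RAD : Prop :=
  II (fun t u _ => Real.sqrt (t ^ 2 + u) * |t| ^ 3) = ENNReal.ofReal (c0 * (35 / 8)) ∧
  II (fun t u _ => Real.sqrt (t ^ 2 + u) * |t| * u) = ENNReal.ofReal (c0 * (35 / 4)) ∧
  II (fun t u v => Real.sqrt (t ^ 2 + u) * |t| * v ^ 2) = ENNReal.ofReal (c0 * (15 / 8)) ∧
  II (fun t u _ => |t| / Real.sqrt (t ^ 2 + u) * u ^ 2) = ENNReal.ofReal (c0 * (105 / 16)) ∧
  II (fun t u v => |t| / Real.sqrt (t ^ 2 + u) * (u * v ^ 2)) = ENNReal.ofReal (c0 * (5 / 4)) ∧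
  II (fun t u v => |t| / Real.sqrt (t ^ 2 + u) * v ^ 4) = ENNReal.ofReal (c0 * (9 / 8)) ∧
  II (fun _ u _ => Real.sqrt u * u ^ 2) = ENNReal.ofReal (c0 * r2p * (105 / 4)) ∧
  II (fun _ u v => Real.sqrt u * (u * v ^ 2)) = ENNReal.ofReal (c0 * r2p * (15 / 4)) ∧
  II (fun _ u v => Real.sqrt u * v ^ 4) = ENNReal.ofReal (c0 * r2p * (9 / 4)) ∧
  II (fun _ u _ => Real.sqrt u * u) = ENNReal.ofReal (c0 * r2p * (15 / 4)) ∧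
  II (fun _ u v => Real.sqrt u * v ^ 2) = ENNReal.ofReal (c0 * r2p * (3 / 4)) ∧
  II (fun _ u _ => 1 / Real.sqrt u * u ^ 2) = ENNReal.ofReal (c0 * r2p * (15 / 4)) ∧
  II (fun _ u v => 1 / Real.sqrt u * (u * v ^ 2)) = ENNReal.ofReal (c0 * r2p * (3 / 4)) ∧
  II (fun _ u v => 1 / Real.sqrt u * v ^ 4) = ENNReal.ofReal (c0 * r2p * (3 / 4)) ∧
  II (fun _ u v => (1 + v ^ 2 / (2 * u)) * u ^ 2) = ENNReal.ofReal (c0 * 26) ∧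
  II (fun _ u v => (1 + v ^ 2 / (2 * u)) * (u * v ^ 2)) = ENNReal.ofReal (c0 * (11 / 2)) ∧
  II (fun _ u v => (1 + v ^ 2 / (2 * u)) * v ^ 4) = ENNReal.ofReal (c0 * (27 / 4))

/-- the inequality near the optimal plane -/
def St4_NEAR : Prop := ∀ G : NP, (G.D ≤ 43 / 1000 ∨ (G.D ≤ 39 / 500 ∧ G.x0 ^ 2 ≤ 2 / 5)) →
  GNP G ≤ ENNReal.ofReal (Real.sqrt (1 + G.D) * (1 - G.D / 5000)) * ENNReal.ofReal (c0 * (35 / 8))

/-- normal form -/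
def St4_NF : Prop := ∀ P : PA 3, P.tau + 3 * P.lam ≤ 723 / 10000 → ∃ G : NP,
  P.GJ ≤ ENNReal.ofReal (1 / Real.sqrt (1 + G.D)) * GNP G ∧
  (1 - (P.tau + 3 * P.lam)) * (1 + G.D) ≤ 1 ∧
  (2 / 5 < G.x0 ^ 2 → 29 / 100 ≤ P.s ^ 2) ∧
  (G.D = 0 → P.tau + 3 * P.lam = 0)

/-- generalised binomial coefficients -/
noncomputable def bc (p : ℝ) : ℕ → ℝ
  | 0 => 1
  | (k + 1) => bc p k * (p - k) / (k + 1)

/-- power series of `E_{3/2}`, `E_{1/2}` -/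
def St4_SER : Prop := ∀ y : ℝ, 0 ≤ y → y < 1 →
  HasSum (fun k => bc (3 / 2) k ^ 2 * (y ^ 2) ^ k)
    (Eq 3 0 ((1 - y) ^ 2 / (2 * (1 + y ^ 2))) * Real.sqrt ((2 * (1 + y ^ 2)) ^ 3)) ∧
  HasSum (fun k => bc (1 / 2) k ^ 2 * (y ^ 2) ^ k)
    (Eq 3 1 ((1 - y) ^ 2 / (2 * (1 + y ^ 2))) * Real.sqrt (2 * (1 + y ^ 2)))

/-- `N = 4` numerical inequalities of the far region; `K = Kn 3` -/
def St4_NUM : Prop := ∀ l : ℝ, 1 / 100000 ≤ l → l ≤ 1 / 2 →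
  X1 3 l ≤ 0 ∧
  (X0 3 l + max 0 (723 / 10000 - 3 * l) * X1 3 l) * Eq 3 0 l ≤ 4999 / 5000 * (3 * Kn 3) ∧
  (71 / 100 * X0 3 l + 29 / 100 * Y0 3 l + max 0 (412 / 10000 - 3 * l) * X1 3 l) * Eq 3 0 l
    ≤ 4999 / 5000 * (3 * Kn 3)

end Pool.Agent.W546.N4
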