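import Mathlib
import Pool.Agent.W546.N4.Defs
import Pool.Agent.W546.ST.Core
import Pool.Agent.W356.ST.CS
import Pool.Agent.W356.ST.GQ

/-!
# The core inequality with a constant `κ` in dimension `N = 4`
-/
set_option autoImplicit false
open Matrix MeasureTheory Set Metric Filter Topology
open scoped ENNReal Nat

namespace Pool.Agent.W546.N4
open Pool.Agent.Helper82.OS Pool.Agent.W546.ST

/-- Cauchy-Schwarz bound with abstract constants -/
theorem far_gen {n : ℕ} (hodd : Odd n) (hn3 : 3 ≤ n) (P : PA n) {l : ℝ} (hl1 : P.lam ≤ l)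
    (hl0 : 0 < l) (hl3 : l ≤ 1 / 2) (h8 : 0 ≤ Eq n 0 l) {T c r : ℝ}
    (hT : (1 + 2 * (l - P.lam)) ^ n ≤ T) (hc : 0 ≤ c) (hr : 0 ≤ r) (hrr : T * c ≤ r ^ 2)
    (hS : ((1 - P.s ^ 2) * X0 n l + P.s ^ 2 * Y0 n l + P.tau * X1 n l) * Eq n 0 l
      ≤ c * ((n : ℝ) * Kn n)) :
    P.GJ ≤ ENNReal.ofReal r * ENNReal.ofReal (G0 n) := by
  have hn0 : (0 : ℝ) < n := by exact_mod_cast (by omega : 0 < n)
  have h1 := Pool.Agent.W356.ST.CS n hn3 P l hl0 hl3
  have h2 := Pool.Agent.W356.ST.GQt n hodd hn3 P l hl0 hl3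
  have h3 := Pool.Agent.W356.ST.GKt n hodd l hl0 hl3
  have h4 := Pool.Agent.W546.ST.int n hodd hn3 P l hl1 hl0 hl3
  set I : ℝ := mn fun a => P.I a / Real.sqrt (hh l a ^ n) with hI
  set e : ℝ := Eq n 0 l with he
  have hK0 : 0 ≤ Kn n := by unfold Kn; positivity
  have hnI : (n : ℝ) * I * e ≤ T * (c * ((n : ℝ) * Kn n)) := by
    have hK : 0 ≤ c * ((n : ℝ) * Kn n) := by positivity
    have hth0 : 0 ≤ (1 + 2 * (l - P.lam)) ^ n := by
      have : 0 ≤ 1 + 2 * (l - P.lam) := by linarith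
      positivity
    calc (n : ℝ) * I * e ≤ ((1 + 2 * (l - P.lam)) ^ n *
          ((1 - P.s ^ 2) * X0 n l + P.s ^ 2 * Y0 n l + P.tau * X1 n l)) * e :=
          mul_le_mul_of_nonneg_right h4 h8
      _ = (1 + 2 * (l - P.lam)) ^ n *
          (((1 - P.s ^ 2) * X0 n l + P.s ^ 2 * Y0 n l + P.tau * X1 n l) * e) := by ring
      _ ≤ (1 + 2 * (l - P.lam)) ^ n * (c * ((n : ℝ) * Kn n)) :=
          mul_le_mul_of_nonneg_left hS hth0
      _ ≤ T * (c * ((n : ℝ) * Kn n)) := mul_le_mul_of_nonneg_right hT hK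
  have hreal : rho n * ((cst n * I) * (cst n * e)) ≤ (r * G0 n) ^ 2 := by
    have hKG := Pool.Agent.W790.ST.KG n hodd hn3
    rw [mul_pow, hKG]
    have hIe : I * e ≤ T * (c * Kn n) := by
      have : (n : ℝ) * (I * e) ≤ n * (T * (c * Kn n)) := by linarith
      exact le_of_mul_le_mul_left this hn0
    have hrp := rho_pos n
    have hcp := cst_pos n
    have e1 : rho n * (cst n * I * (cst n * e)) = (rho n * cst n ^ 2) * (I * e) := by ring
    rw [e1]
    have e2 : (rho n * cst n ^ 2) * (I * e) ≤ (rho n * cst n ^ 2) * (T * (c * Kn n)) :=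
      mul_le_mul_of_nonneg_left hIe (by positivity)
    have e3 : 0 ≤ rho n * cst n ^ 2 * Kn n := by positivity
    nlinarith [mul_le_mul_of_nonneg_left hrr e3]
  have hsq : P.GJ ^ 2 ≤ (ENNReal.ofReal (r * G0 n)) ^ 2 := by
    rw [h3] at h1
    refine h1.trans ?_
    have hcp := cst_pos n
    calc ENNReal.ofReal (rho n) * (P.GQ l * ENNReal.ofReal (cst n * Eq n 0 l))
        ≤ ENNReal.ofReal (rho n) * (ENNReal.ofReal (cst n * I) * ENNReal.ofReal (cst n * e)) := by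
          gcongr
      _ = ENNReal.ofReal (rho n * ((cst n * I) * (cst n * e))) := by
          rw [ENNReal.ofReal_mul (rho_pos n).le,
            ENNReal.ofReal_mul' (mul_nonneg hcp.le h8)]
      _ ≤ ENNReal.ofReal ((r * G0 n) ^ 2) := ENNReal.ofReal_le_ofReal hreal
      _ = _ := ENNReal.ofReal_pow (by have := G0_pos n; positivity) 2
  rw [← ENNReal.ofReal_mul hr]
  exact (ENNReal.pow_le_pow_left_iff two_ne_zero).1 hsq

/-- far region, `N = 4` -/
theorem far4 (hnum : St4_NUM) (P : PA 3)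
    (hP : 723 / 10000 ≤ P.tau + 3 * P.lam ∨
      (412 / 10000 ≤ P.tau + 3 * P.lam ∧ 29 / 100 ≤ P.s ^ 2)) :
    P.GJ ≤ ENNReal.ofReal (99995 / 100000) * ENNReal.ofReal (G0 3) := by
  set l : ℝ := max P.lam (1 / 100000) with hl
  have hl1 : P.lam ≤ l := le_max_left _ _
  have hl2 : 1 / 100000 ≤ l := le_max_right _ _
  have hl0 : 0 < l := lt_of_lt_of_le (by norm_num) hl2
  have hl3 : l ≤ 1 / 2 := max_le (P.lam_le (by norm_num)) (by norm_num)
  have hdiff : l - P.lam ≤ 1 / 100000 := by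
    rcases max_cases P.lam (1 / 100000 : ℝ) with ⟨h, -⟩ | ⟨h, -⟩
    · rw [hl, h, sub_self]; norm_num
    · rw [hl, h]; linarith [P.lam_nonneg]
  have h8 : 0 ≤ Eq 3 0 l := (Pool.Agent.W160.ST.EM2 2 le_rfl l hl0 hl3).1
  obtain ⟨hx1, hA, hB⟩ := hnum l hl2 hl3
  have h5 := Pool.Agent.W797.ST.XY 3 le_rfl l hl0 hl3
  have hs1 := P.s_sq_le
  have hs0 := sq_nonneg P.s
  have hT0 : 0 ≤ P.tau := P.tau_nonneg
  have hth : (1 + 2 * (l - P.lam)) ^ 3 ≤ 100007 / 100000 := by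
    have e1 : 1 + 2 * (l - P.lam) ≤ 1 + 2 / 100000 := by linarith
    calc (1 + 2 * (l - P.lam)) ^ 3 ≤ (1 + 2 / 100000) ^ 3 :=
          pow_le_pow_left₀ (by linarith) e1 _
      _ ≤ 100007 / 100000 := by norm_num
  refine far_gen (by decide) le_rfl P hl1 hl0 hl3 h8 (T := 100007 / 100000)
    (c := 4999 / 5000) hth (by norm_num) (by norm_num) (by norm_num) ?_
  have hcast : ((3 : ℕ) : ℝ) = 3 := by norm_num
  rw [hcast]
  rcases hP with hP | ⟨hP, hs⟩
  · refine le_trans (mul_le_mul_of_nonneg_right ?_ h8) hA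
    have htau : max 0 (723 / 10000 - 3 * l) ≤ P.tau := by
      refine max_le hT0 ?_
      linarith
    have e1 : P.s ^ 2 * Y0 3 l ≤ P.s ^ 2 * X0 3 l := mul_le_mul_of_nonneg_left h5 hs0
    have e2 : P.tau * X1 3 l ≤ max 0 (723 / 10000 - 3 * l) * X1 3 l :=
      mul_le_mul_of_nonpos_right htau hx1
    linarith
  · refine le_trans (mul_le_mul_of_nonneg_right ?_ h8) hB
    have htau : max 0 (412 / 10000 - 3 * l) ≤ P.tau := by
      refine max_le hT0 ?_
      linarith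
    have e1 : (P.s ^ 2 - 29 / 100) * Y0 3 l ≤ (P.s ^ 2 - 29 / 100) * X0 3 l :=
      mul_le_mul_of_nonneg_left h5 (by linarith)
    have e2 : P.tau * X1 3 l ≤ max 0 (412 / 10000 - 3 * l) * X1 3 l :=
      mul_le_mul_of_nonpos_right htau hx1
    linarith

theorem G03 : G0 3 = c0 * (35 / 8) := by
  unfold G0 c0
  have h1 : (7‼ : ℕ) = 105 := by decide
  have h2 : (3 ! : ℕ) = 6 := by decide
  norm_num [h1, h2, Nat.factorial]
  ring

theorem NP.D_nonneg (G : NP) : 0 ≤ G.D := by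
  unfold NP.D
  positivity

/-- the Gaussian core inequality with a constant, `N = 4` -/
theorem gcore4 (hnum : St4_NUM) (hnf : St4_NF) (hnear : St4_NEAR) (F : Fr 4) :
    ∃ κ : ℝ≥0∞, κ ≤ 1 ∧ (κ = 1 → F.del = 0) ∧
      ∫⁻ w : E 5, (∫⁻ t : ℝ, ENNReal.ofReal (F.FF t w * gt t * gw w))
        ≤ κ * ∫⁻ w : E 5, Psi 4 (F.u2 w) * ENNReal.ofReal (gw w) := by
  have hG0 : ∀ e : E 5, ‖e‖ = 1 →
      ∫⁻ w : E 5, Psi 4 (‖w‖ ^ 2 - inner ℝ w e ^ 2) *
        ENNReal.ofReal (gw w) = ENNReal.ofReal (G0 3) :=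
    fun e he => Pool.Agent.W790.ST.G0t 3 (by decide) e he
  have hR : ∫⁻ w : E 5, Psi 4 (F.u2 w) * ENNReal.ofReal (gw w) = ENNReal.ofReal (G0 3) := by
    rw [← hG0 F.e F.he]
    refine lintegral_congr fun w => ?_
    rw [Pool.Agent.W546.ST.Fr.u2_eq]
  rw [hR]
  obtain ⟨P, hP, t, w, htw, htr⟩ := Pool.Agent.W253.ST.NFP 3 (by norm_num) F
  change ∃ κ : ℝ≥0∞, κ ≤ 1 ∧ (κ = 1 → F.del = 0) ∧ GFr F ≤ κ * ENNReal.ofReal (G0 3)
  have hcast : ((3 : ℕ) : ℝ) = 3 := by norm_num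
  rw [hcast] at htr
  have hfar : P.GJ ≤ ENNReal.ofReal (99995 / 100000) * ENNReal.ofReal (G0 3) →
      ∃ κ : ℝ≥0∞, κ ≤ 1 ∧ (κ = 1 → F.del = 0) ∧ GFr F ≤ κ * ENNReal.ofReal (G0 3) := by
    intro h
    refine ⟨ENNReal.ofReal (99995 / 100000), ?_, ?_, ?_⟩
    · rw [ENNReal.ofReal_le_one]; norm_num
    · intro h1
      rw [ENNReal.ofReal_eq_one] at h1
      norm_num at h1
    · rw [hP]
      exact h
  rcases le_or_gt (723 / 10000) (P.tau + 3 * P.lam) with h | h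
  · exact hfar (far4 hnum P (Or.inl h))
  · obtain ⟨G, hG1, hG2, hG3, hG4⟩ := hnf P h.le
    have hD := G.D_nonneg
    have hn : (G.D ≤ 43 / 1000 ∨ (G.D ≤ 39 / 500 ∧ G.x0 ^ 2 ≤ 2 / 5)) →
        ∃ κ : ℝ≥0∞, κ ≤ 1 ∧ (κ = 1 → F.del = 0) ∧ GFr F ≤ κ * ENNReal.ofReal (G0 3) := by
      intro hc
      have h1 := hnear G hc
      have hD1 : G.D ≤ 39 / 500 := by
        rcases hc with hc | hc
        · linarith
        · exact hc.1
      refine ⟨ENNReal.ofReal (1 - G.D / 5000), ?_, ?_, ?_⟩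
      · rw [ENNReal.ofReal_le_one]; linarith
      · intro h2
        rw [ENNReal.ofReal_eq_one] at h2
        have hD0 : G.D = 0 := by linarith
        have hdel := hG4 hD0
        obtain ⟨G', -, hdel', hz⟩ := Pool.Agent.W367.ST.NFG 4 (by norm_num) F
          ⟨t, w, htw, by rw [htr, hdel]; norm_num⟩
        have hd := hdel' t w htw
        rw [htr, hdel] at hd
        norm_num at hd
        apply hz
        refine le_antisymm hd ?_
        unfold GN.del
        refine Finset.sum_nonneg fun j _ => ?_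
        have h1 := G'.hcs j
        have h2 : 0 ≤ ∑ a, ‖G'.Ga j (EuclideanSpace.single a 1)‖ ^ 2 :=
          Finset.sum_nonneg fun _ _ => by positivity
        linarith
      · rw [hP]
        refine hG1.trans ((mul_le_mul_right h1 _).trans ?_)
        rw [G03, ← mul_assoc]
        refine mul_le_mul_left ?_ _
        have hs : 0 < Real.sqrt (1 + G.D) := Real.sqrt_pos.2 (by linarith)
        rw [← ENNReal.ofReal_mul (by positivity)]
        refine ENNReal.ofReal_le_ofReal (le_of_eq ?_)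
        field_simp
    rcases le_or_gt G.D (43 / 1000) with hD1 | hD1
    · exact hn (Or.inl hD1)
    · rcases le_or_gt (G.x0 ^ 2) (2 / 5) with hx | hx
      · refine hn (Or.inr ⟨?_, hx⟩)
        by_contra hc
        rw [not_le] at hc
        nlinarith
      · refine hfar (far4 hnum P (Or.inr ⟨?_, hG3 hx⟩))
        by_contra hc
        rw [not_le] at hc
        nlinarith

end Pool.Agent.W546.N4
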