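import Mathlib
import Pool.Agent.W546.N4.Star2
import Pool.Agent.W813.N4.PW
import Pool.Agent.W672.N4.SL
import Pool.Agent.W701.N4.Phi
import Pool.Agent.W699.N4.M
import Pool.Agent.W191.N4.RAD
import Pool.Agent.W214.N4.Near
import Pool.Agent.W451.N4.NF
import Pool.Agent.W12.N4.SER
import Pool.Agent.W140.N4.Num

/-!
# Strict lower bound for the volume of smooth unit fields on `S^{2m+1}`, `m ≥ 2`
-/
set_option autoImplicit false
open Matrix MeasureTheory Set Metric Filter Topology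
open scoped ENNReal ContDiff

namespace Pool.Agent.W546.N4
open Pool.Agent.Helper82.OS Pool.Agent.W546.ST

theorem core2 : Core2 :=
  core2_kappa (Pool.Agent.W140.N4.NUM Pool.Agent.W12.N4.SER) Pool.Agent.W451.N4.NF
    (Pool.Agent.W214.N4.NEAR Pool.Agent.W813.N4.PW Pool.Agent.W672.N4.SL Pool.Agent.W701.N4.PHI
      Pool.Agent.W699.N4.M Pool.Agent.W699.N4.BD Pool.Agent.W191.N4.RAD)

theorem star {m : ℕ} (hm : 2 ≤ m) : Pool.Agent.Helper82.OS.Star (2 * m) := star2 core2 hm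

theorem strict {m : ℕ} (hm : 2 ≤ m) {V : E (2 * m + 2) → E (2 * m + 2)} (hV : UT V) :
    ENNReal.ofReal ((16 : ℝ) ^ m / ((4 * m).choose (2 * m) : ℝ)) * sg (2 * m + 2) univ <
      ∫⁻ x : sphere (0 : E (2 * m + 2)) 1, ENNReal.ofReal (dens V x) ∂(sg (2 * m + 2)) :=
  strict2 core2 hm hV

end Pool.Agent.W546.N4
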